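import Pool.Agent.H13.SR.Defs

/-!
# Project SR, module L: general Dirichlet series and Landau's lemma
-/

set_option autoImplicit false

namespace Pool.Agent.H13.SR

open Filter Topology

theorem norm_dir_term (d : ℂ) (ℓ : ℝ) (z : ℂ) :
    ‖d * Complex.exp (-z * ℓ)‖ = ‖d‖ * Real.exp (-z.re * ℓ) := by
  rw [norm_mul, Complex.norm_exp]
  congr 2
  simp

theorem dir_bound {ℓ σ s : ℝ} (hℓ : 0 ≤ ℓ) (hs : σ ≤ s) : Real.exp (-s * ℓ) ≤ Real.exp (-σ * ℓ) := by
  apply Real.exp_le_exp.mpr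
  nlinarith

/-- L1: analyticity and derivative -/
theorem dir_hasDerivAt {J : Type} (d : J → ℂ) (ℓ : J → ℝ) (hℓ : ∀ j, 0 ≤ ℓ j) (σ₀ : ℝ)
    (hd : ∀ σ, σ₀ < σ → Summable fun j => ‖d j‖ * Real.exp (-σ * ℓ j)) (s : ℂ) (hs : σ₀ < s.re) :
    HasDerivAt (fun z => ∑' j, d j * Complex.exp (-z * ℓ j))
      (∑' j, -(ℓ j : ℂ) * d j * Complex.exp (-s * ℓ j)) s := by
  obtain ⟨σ, h1, h2⟩ := exists_between hs
  have hU : IsOpen {z : ℂ | σ < z.re} := isOpen_lt continuous_const Complex.continuous_re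
  have hF : ∀ j : J, ∀ z : ℂ, HasDerivAt (fun z : ℂ => d j * Complex.exp (-z * ℓ j))
      (-(ℓ j : ℂ) * d j * Complex.exp (-z * ℓ j)) z := by
    intro j z
    have h3 : HasDerivAt (fun z : ℂ => -z * (ℓ j : ℂ)) (-1 * (ℓ j : ℂ)) z :=
      ((hasDerivAt_id z).neg).mul_const _
    have h4 := (h3.cexp).const_mul (d j)
    exact h4.congr_deriv (by ring)
  have hb : ∀ j : J, ∀ z : ℂ, z ∈ {z : ℂ | σ < z.re} →
      ‖d j * Complex.exp (-z * ℓ j)‖ ≤ ‖d j‖ * Real.exp (-σ * ℓ j) := by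
    intro j z hz
    rw [norm_dir_term]
    exact mul_le_mul_of_nonneg_left (dir_bound (hℓ j) (le_of_lt hz)) (norm_nonneg _)
  have hdiff := Complex.differentiableOn_tsum_of_summable_norm (hd σ h1)
    (fun j => fun z _ => (hF j z).differentiableAt.differentiableWithinAt) hU hb
  have hs' : s ∈ {z : ℂ | σ < z.re} := h2
  have h5 := (hdiff.differentiableAt (hU.mem_nhds hs')).hasDerivAt
  have h6 := Complex.hasSum_deriv_of_summable_norm (hd σ h1)
    (fun j => fun z _ => (hF j z).differentiableAt.differentiableWithinAt) hU hb hs'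
  have h7 : (∑' j, -(ℓ j : ℂ) * d j * Complex.exp (-s * ℓ j)) =
      deriv (fun w : ℂ => ∑' j, d j * Complex.exp (-w * ℓ j)) s := by
    rw [← h6.tsum_eq]
    exact tsum_congr fun j => ((hF j s).deriv).symm
  rw [h7]
  exact h5

/-- L2: weights `ℓ j` do not destroy summability -/
theorem dir_summable_mul {J : Type} (c : J → ℝ) (hc : ∀ j, 0 ≤ c j) (ℓ : J → ℝ)
    (hℓ : ∀ j, 0 ≤ ℓ j) (σ₀ : ℝ)
    (hd : ∀ σ, σ₀ < σ → Summable fun j => c j * Real.exp (-σ * ℓ j)) (σ : ℝ) (hs : σ₀ < σ) :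
    Summable fun j => ℓ j * c j * Real.exp (-σ * ℓ j) := by
  obtain ⟨σ', h1, h2⟩ := exists_between hs
  refine Summable.of_nonneg_of_le (fun j => ?_) (fun j => ?_)
    ((hd σ' h1).mul_left (1 / (σ - σ')))
  · exact mul_nonneg (mul_nonneg (hℓ j) (hc j)) (Real.exp_pos _).le
  · have hpos : 0 < σ - σ' := by linarith
    have h3 : (σ - σ') * ℓ j ≤ Real.exp ((σ - σ') * ℓ j) := by
      linarith [Real.add_one_le_exp ((σ - σ') * ℓ j)]
    have h4 : Real.exp (-σ' * ℓ j) = Real.exp ((σ - σ') * ℓ j) * Real.exp (-σ * ℓ j) := by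
      rw [← Real.exp_add]
      congr 1
      ring
    rw [h4]
    have h5 : ℓ j ≤ 1 / (σ - σ') * Real.exp ((σ - σ') * ℓ j) := by
      rw [one_div, ← div_eq_inv_mul, le_div_iff₀ hpos]
      linarith
    calc ℓ j * c j * Real.exp (-σ * ℓ j) = ℓ j * (c j * Real.exp (-σ * ℓ j)) := by ring
      _ ≤ (1 / (σ - σ') * Real.exp ((σ - σ') * ℓ j)) * (c j * Real.exp (-σ * ℓ j)) :=
          mul_le_mul_of_nonneg_right h5 (mul_nonneg (hc j) (Real.exp_pos _).le)
      _ = 1 / (σ - σ') * (c j * (Real.exp ((σ - σ') * ℓ j) * Real.exp (-σ * ℓ j))) := by ring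

/-- L3: Landau -/
theorem landau {J : Type} (c : J → ℝ) (hc : ∀ j, 0 ≤ c j) (ℓ : J → ℝ) (hℓ : ∀ j, 0 ≤ ℓ j)
    (σ₀ : ℝ) (hd : ∀ σ, σ₀ < σ → Summable fun j => c j * Real.exp (-σ * ℓ j)) (g : ℂ → ℂ)
    (hg : AnalyticAt ℂ g (σ₀ : ℂ))
    (he : ∀ᶠ s in 𝓝 (σ₀ : ℂ), σ₀ < s.re → g s = ∑' j, (c j : ℂ) * Complex.exp (-s * ℓ j)) :
    ∃ ε > 0, Summable fun j => c j * Real.exp (-(σ₀ - ε) * ℓ j) := by
  classical
  set F : ℂ → ℂ := fun s => ∑' j, (c j : ℂ) * Complex.exp (-s * ℓ j) with hF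
  set a : ℝ := σ₀ + 1 with ha
  -- a ball on which `g` is differentiable and equal to `F` on the right half
  obtain ⟨r, hr, hball⟩ : ∃ r > 0, ∀ s ∈ Metric.ball (σ₀ : ℂ) r,
      AnalyticAt ℂ g s ∧ (σ₀ < s.re → g s = F s) := by
    have h1 : ∀ᶠ s in 𝓝 (σ₀ : ℂ), AnalyticAt ℂ g s ∧ (σ₀ < s.re → g s = F s) :=
      hg.eventually_analyticAt.and he
    obtain ⟨r, hr, h2⟩ := Metric.eventually_nhds_iff_ball.mp h1
    exact ⟨r, hr, h2⟩
  have hnorm : ∀ j, ‖(c j : ℂ)‖ = c j := fun j => by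
    rw [Complex.norm_real, Real.norm_of_nonneg (hc j)]
  have hd' : ∀ σ, σ₀ < σ → Summable fun j => ‖(c j : ℂ)‖ * Real.exp (-σ * ℓ j) := fun σ hσ => by
    simpa only [hnorm] using hd σ hσ
  have hFd : ∀ s : ℂ, σ₀ < s.re → DifferentiableAt ℂ F s := fun s hs =>
    (dir_hasDerivAt (fun j => (c j : ℂ)) ℓ hℓ σ₀ hd' s hs).differentiableAt
  -- the glued function
  set Gf : ℂ → ℂ := fun s => if σ₀ < s.re then F s else g s with hGf
  have hopen : IsOpen {z : ℂ | σ₀ < z.re} := isOpen_lt continuous_const Complex.continuous_re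
  have hG1 : ∀ s : ℂ, σ₀ < s.re → DifferentiableAt ℂ Gf s := by
    intro s hs
    have : Gf =ᶠ[𝓝 s] F := by
      filter_upwards [hopen.mem_nhds hs] with z hz
      exact if_pos hz
    exact (hFd s hs).congr_of_eventuallyEq this
  have hG2 : ∀ s ∈ Metric.ball (σ₀ : ℂ) r, DifferentiableAt ℂ Gf s := by
    intro s hs
    have : Gf =ᶠ[𝓝 s] g := by
      filter_upwards [Metric.isOpen_ball.mem_nhds hs] with z hz
      by_cases h : σ₀ < z.re
      · simp only [hGf, if_pos h]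
        exact ((hball z hz).2 h).symm
      · simp only [hGf, if_neg h]
    exact (hball s hs).1.differentiableAt.congr_of_eventuallyEq this
  -- the radius
  set δ : ℝ := min 1 (r ^ 2 / 8) with hδ
  have hδ0 : 0 < δ := lt_min one_pos (by positivity)
  have hδ1 : δ ≤ 1 := min_le_left _ _
  have hδr : δ ≤ r ^ 2 / 8 := min_le_right _ _
  set R : NNReal := ⟨1 + δ, by positivity⟩ with hR
  have hGball : DifferentiableOn ℂ Gf (Metric.closedBall (a : ℂ) R) := by
    intro z hz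
    apply DifferentiableAt.differentiableWithinAt
    by_cases h : σ₀ < z.re
    · exact hG1 z h
    · apply hG2
      rw [Metric.mem_closedBall, dist_eq_norm] at hz
      rw [Metric.mem_ball, dist_eq_norm]
      have hz2 : ‖z - (a : ℂ)‖ ^ 2 ≤ (1 + δ) ^ 2 := by
        have : ‖z - (a : ℂ)‖ ≤ 1 + δ := hz
        have h0 := norm_nonneg (z - (a : ℂ))
        nlinarith
      have e1 : ‖z - (a : ℂ)‖ ^ 2 = (z.re - a) ^ 2 + z.im ^ 2 := by
        rw [Complex.sq_norm, Complex.normSq_apply]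
        simp
        ring
      have e2 : ‖z - (σ₀ : ℂ)‖ ^ 2 = (z.re - σ₀) ^ 2 + z.im ^ 2 := by
        rw [Complex.sq_norm, Complex.normSq_apply]
        simp
        ring
      have h3 : z.re ≤ σ₀ := not_lt.mp h
      have h4 : ‖z - (σ₀ : ℂ)‖ ^ 2 < r ^ 2 := by
        rw [e2]
        rw [e1] at hz2
        have ha' : a = σ₀ + 1 := ha
        rw [ha'] at hz2
        have hr2 : 0 < r ^ 2 := by positivity
        nlinarith [sq_nonneg z.im]
      exact lt_of_pow_lt_pow_left₀ 2 hr.le h4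
  have hRpos : 0 < R := by
    rw [← NNReal.coe_pos]
    show (0 : ℝ) < 1 + δ
    positivity
  have hps := hGball.hasFPowerSeriesOnBall hRpos
  -- the explicit power series at `a`
  set b : ℕ → ℂ := fun k => ∑' j, (c j : ℂ) * Complex.exp (-(a : ℂ) * ℓ j) *
    (-(ℓ j : ℂ)) ^ k / (k.factorial : ℂ) with hb
  -- double summability for ‖w‖ < 1
  have hterm : ∀ (w : ℂ) (j : J) (k : ℕ), ‖(c j : ℂ) * Complex.exp (-(a : ℂ) * ℓ j) *
      (-(ℓ j : ℂ)) ^ k / (k.factorial : ℂ) * w ^ k‖ =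
      c j * Real.exp (-a * ℓ j) * ((ℓ j * ‖w‖) ^ k / k.factorial) := by
    intro w j k
    rw [norm_mul, norm_div, norm_mul, norm_mul, hnorm, Complex.norm_exp, norm_pow, norm_neg,
      Complex.norm_real, Real.norm_of_nonneg (hℓ j), norm_pow, mul_pow]
    have : (-(a : ℂ) * (ℓ j : ℂ)).re = -a * ℓ j := by simp
    rw [this]
    simp
    ring
  have hexp : ∀ (x : ℝ), HasSum (fun k : ℕ => x ^ k / (k.factorial : ℝ)) (Real.exp x) := fun x => by
    rw [Real.exp_eq_exp_ℝ]
    exact NormedSpace.expSeries_div_hasSum_exp x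
  have hsummJ : ∀ w : ℂ, ‖w‖ < 1 → Summable fun x : J × ℕ =>
      ‖(c x.1 : ℂ) * Complex.exp (-(a : ℂ) * ℓ x.1) *
      (-(ℓ x.1 : ℂ)) ^ x.2 / (x.2.factorial : ℂ) * w ^ x.2‖ := by
    intro w hw
    rw [summable_prod_of_nonneg (fun x => norm_nonneg _)]
    constructor
    · intro j
      simp only [hterm]
      exact ((hexp (ℓ j * ‖w‖)).summable).mul_left _
    · simp only [hterm]
      have h1 : ∀ j, ∑' k : ℕ, c j * Real.exp (-a * ℓ j) * ((ℓ j * ‖w‖) ^ k / k.factorial) =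
          c j * Real.exp (-(a - ‖w‖) * ℓ j) := by
        intro j
        rw [tsum_mul_left, (hexp (ℓ j * ‖w‖)).tsum_eq, mul_assoc, ← Real.exp_add]
        congr 2
        ring
      simp only [h1]
      exact hd (a - ‖w‖) (by rw [ha]; linarith)
  have hcexp : ∀ (x : ℂ), HasSum (fun k : ℕ => x ^ k / (k.factorial : ℂ)) (Complex.exp x) :=
    fun x => by
      rw [Complex.exp_eq_exp_ℂ]
      exact NormedSpace.expSeries_div_hasSum_exp x
  have hsumF : ∀ w : ℂ, ‖w‖ < 1 → HasSum (fun k => b k * w ^ k) (F (a + w)) := by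
    intro w hw
    have hs := (hsummJ w hw).of_norm
    have h1 := hs.hasSum
    -- sum over k first
    have h2 : ∑' x : J × ℕ, (c x.1 : ℂ) * Complex.exp (-(a : ℂ) * ℓ x.1) *
        (-(ℓ x.1 : ℂ)) ^ x.2 / (x.2.factorial : ℂ) * w ^ x.2 = F (a + w) := by
      rw [hs.tsum_prod]
      simp only [hF]
      apply tsum_congr
      intro j
      have h3 : ∀ k : ℕ, (c j : ℂ) * Complex.exp (-(a : ℂ) * ℓ j) * (-(ℓ j : ℂ)) ^ k /
          (k.factorial : ℂ) * w ^ k = (c j : ℂ) * Complex.exp (-(a : ℂ) * ℓ j) *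
          ((-(ℓ j : ℂ) * w) ^ k / (k.factorial : ℂ)) := by
        intro k
        rw [mul_pow]
        ring
      simp only [h3]
      rw [tsum_mul_left, (hcexp (-(ℓ j : ℂ) * w)).tsum_eq, mul_assoc, ← Complex.exp_add]
      congr 2
      ring
    rw [h2] at h1
    have h1' := (Equiv.prodComm ℕ J).hasSum_iff.mpr h1
    have hs' := (Equiv.prodComm ℕ J).summable_iff.mpr hs
    have h4 := h1'.prod_fiberwise (fun k => (hs'.prod_factor k).hasSum)
    refine h4.congr_fun ?_
    intro k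
    simp only [hb, Function.comp_apply, Equiv.prodComm_apply, Prod.swap]
    rw [tsum_mul_right]
  -- power series
  have hps2 : HasFPowerSeriesAt Gf (FormalMultilinearSeries.ofScalars ℂ b) (a : ℂ) := by
    refine ⟨((1 / 2 : NNReal) : ENNReal), ?_, ?_, ?_⟩
    · apply FormalMultilinearSeries.le_radius_of_summable_norm
      have h1 := hsumF (1 / 2) (by norm_num)
      have h2 := (hsummJ (1 / 2) (by norm_num)).prod_symm
      have h3 : Summable fun k : ℕ => ∑' j, ‖(c j : ℂ) * Complex.exp (-(a : ℂ) * ℓ j) *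
          (-(ℓ j : ℂ)) ^ k / (k.factorial : ℂ) * (1 / 2 : ℂ) ^ k‖ := by
        have := (summable_prod_of_nonneg (fun x => norm_nonneg _)).mp h2
        exact this.2
      refine Summable.of_nonneg_of_le (fun k => by positivity) (fun k => ?_) h3
      rw [FormalMultilinearSeries.ofScalars_norm]
      have h5 : ‖b k‖ * ((1 / 2 : NNReal) : ℝ) ^ k = ‖b k * (1 / 2 : ℂ) ^ k‖ := by
        rw [norm_mul, norm_pow]
        congr 2
        norm_num
      rw [h5]
      have h6 : b k * (1 / 2 : ℂ) ^ k = ∑' j, (c j : ℂ) * Complex.exp (-(a : ℂ) * ℓ j) *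
          (-(ℓ j : ℂ)) ^ k / (k.factorial : ℂ) * (1 / 2 : ℂ) ^ k := by
        rw [tsum_mul_right]
      rw [h6]
      apply norm_tsum_le_tsum_norm
      have := (summable_prod_of_nonneg (fun x => norm_nonneg _)).mp h2
      exact this.1 k
    · norm_num
    · intro y hy
      have hy' : ‖y‖ < 1 := by
        have h1 : y ∈ Metric.ball (0 : ℂ) ((1 / 2 : NNReal) : ℝ) := by
          rw [← Metric.eball_coe]
          exact hy
        rw [Metric.mem_ball, dist_zero_right] at h1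
        have h2 : ((1 / 2 : NNReal) : ℝ) = 1 / 2 := by norm_num
        rw [h2] at h1
        linarith
      have h1 := hsumF y hy'
      have h2 : Gf (a + y) = F (a + y) := by
        simp only [hGf]
        rw [if_pos]
        have := Complex.abs_re_le_norm y
        have h3 := abs_lt.mp (lt_of_le_of_lt this hy')
        simp only [Complex.add_re, Complex.ofReal_re, ha]
        linarith [h3.1]
      rw [h2]
      refine h1.congr_fun fun k => ?_
      rw [FormalMultilinearSeries.ofScalars_apply_eq]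
      simp [smul_eq_mul]
  have heq := hps.hasFPowerSeriesAt.eq_formalMultilinearSeries hps2
  -- evaluate at a point beyond the old radius
  set ρ : ℝ := 1 + δ / 2 with hρ
  have hρ1 : 1 < ρ := by rw [hρ]; linarith
  have hbig : Summable fun k => b k * (-(ρ : ℂ)) ^ k := by
    have hy : (-(ρ : ℂ)) ∈ Metric.eball (0 : ℂ) (R : ENNReal) := by
      rw [Metric.eball_coe, Metric.mem_ball, dist_zero_right, norm_neg, Complex.norm_real,
        Real.norm_of_nonneg (by linarith)]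
      show ρ < 1 + δ
      rw [hρ]
      linarith
    have h1 := (hps.hasSum hy).summable
    rw [heq] at h1
    refine (summable_congr fun k => ?_).mpr h1
    rw [FormalMultilinearSeries.ofScalars_apply_eq]
    simp [smul_eq_mul]
  -- real form
  have hfin : ∀ k : ℕ, Summable fun j => c j * Real.exp (-a * ℓ j) * ((ℓ j * ρ) ^ k / k.factorial) := by
    intro k
    have h2 := (hsummJ (1 / 2) (by norm_num)).prod_symm
    have h3 := ((summable_prod_of_nonneg (fun x => norm_nonneg _)).mp h2).1 k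
    have h4 : Summable fun j => c j * Real.exp (-a * ℓ j) *
        ((ℓ j * (1 / 2)) ^ k / k.factorial) := by
      refine (summable_congr fun j => ?_).mpr h3
      have := hterm (1 / 2) j k
      simp only [Prod.swap]
      rw [this]
      norm_num
    have h5 := h4.mul_left ((2 * ρ) ^ k)
    refine (summable_congr fun j => ?_).mpr h5
    rw [mul_pow, mul_pow, mul_pow, one_div, inv_pow]
    have : (2 : ℝ) ^ k ≠ 0 := by positivity
    field_simp
  have hbk : ∀ k : ℕ, b k * (-(ρ : ℂ)) ^ k =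
      ((∑' j, c j * Real.exp (-a * ℓ j) * ((ℓ j * ρ) ^ k / k.factorial) : ℝ) : ℂ) := by
    intro k
    rw [Complex.ofReal_tsum, hb, ← tsum_mul_right]
    apply tsum_congr
    intro j
    push_cast
    rw [mul_pow, neg_pow (ℓ j : ℂ), neg_pow (ρ : ℂ)]
    have h1 : ((-1 : ℂ) ^ k) * (-1) ^ k = 1 := by
      rw [← mul_pow]
      norm_num
    have h2 : (c j : ℂ) * Complex.exp (-(a : ℂ) * (ℓ j : ℂ)) * ((-1) ^ k * (ℓ j : ℂ) ^ k) /
        (k.factorial : ℂ) * ((-1) ^ k * (ρ : ℂ) ^ k) =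
        (c j : ℂ) * Complex.exp (-(a : ℂ) * (ℓ j : ℂ)) * ((ℓ j : ℂ) ^ k * (ρ : ℂ) ^ k /
        (k.factorial : ℂ)) * ((-1 : ℂ) ^ k * (-1) ^ k) := by ring
    rw [h2, h1, mul_one]
  have hreal : Summable fun k : ℕ =>
      ∑' j, c j * Real.exp (-a * ℓ j) * ((ℓ j * ρ) ^ k / k.factorial) := by
    simp only [hbk] at hbig
    exact Complex.summable_ofReal.mp hbig
  have hprod : Summable fun x : ℕ × J =>
      c x.2 * Real.exp (-a * ℓ x.2) * ((ℓ x.2 * ρ) ^ x.1 / x.1.factorial) := by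
    rw [summable_prod_of_nonneg]
    · exact ⟨hfin, hreal⟩
    · intro x
      have h1 := hc x.2
      have h2 := hℓ x.2
      have h3 : (0 : ℝ) ≤ ρ := by linarith
      show (0 : ℝ) ≤ _
      positivity
  have hprod2 := ((summable_prod_of_nonneg (fun x => ?_)).mp hprod.prod_symm).2
  · refine ⟨ρ - 1, by linarith, ?_⟩
    refine (summable_congr fun j => ?_).mpr hprod2
    simp only [Prod.swap]
    rw [tsum_mul_left, (hexp (ℓ j * ρ)).tsum_eq, mul_assoc, ← Real.exp_add]
    congr 2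
    rw [ha]
    ring
  · have h1 := hc x.1
    have h2 := hℓ x.1
    have h3 : (0 : ℝ) ≤ ρ := by linarith
    show (0 : ℝ) ≤ _
    simp only [Prod.swap]
    positivity

end Pool.Agent.H13.SR
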