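import Pool.Agent.H31.SR.E
import Pool.Agent.H74.SR.F
import Pool.Agent.H13.SR.L

/-!
# Project SR: the core argument (Landau, identity theorem, functional equation)
-/

set_option autoImplicit false

namespace Pool.Agent.H13.SR

open scoped ComplexConjugate
open Filter Topology

section general

variable {J : Type} (c : J → ℝ) (ℓ : J → ℝ)

/-- the identity theorem on a half plane -/
theorem half_plane_eqOn (σ : ℝ) (f g : ℂ → ℂ) (hf : DifferentiableOn ℂ f {s | σ < s.re})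
    (hg : DifferentiableOn ℂ g {s | σ < s.re}) (h : ∀ s : ℂ, 1 < s.re → σ < s.re → f s = g s)
    (s : ℂ) (hs : σ < s.re) : f s = g s := by
  have hopen : IsOpen {s : ℂ | σ < s.re} := isOpen_lt continuous_const Complex.continuous_re
  have hconv : IsPreconnected {s : ℂ | σ < s.re} :=
    (convex_halfSpace_re_gt σ).isPreconnected
  set z₀ : ℂ := ((max σ 1 + 1 : ℝ) : ℂ) with hz₀
  have h1 : σ < z₀.re := by
    rw [hz₀, Complex.ofReal_re]
    linarith [le_max_left σ 1]
  have h2 : 1 < z₀.re := by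
    rw [hz₀, Complex.ofReal_re]
    linarith [le_max_right σ 1]
  have h3 : f =ᶠ[𝓝 z₀] g := by
    have ho1 : IsOpen {s : ℂ | 1 < s.re} := isOpen_lt continuous_const Complex.continuous_re
    filter_upwards [hopen.mem_nhds h1, ho1.mem_nhds h2] with z hz1 hz2
    exact h z hz2 hz1
  exact (hf.analyticOnNhd hopen).eqOn_of_preconnected_of_eventuallyEq (hg.analyticOnNhd hopen)
    hconv h1 h3 hs

/-- Landau's argument: `A = B exp Φ` on `Re s > 1`, `A`, `B` analytic on `Re s > σ₁`, `B` nonzero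
on the real segment `(σ₁, 1]`. -/
theorem landau_ratio (hc : ∀ j, 0 ≤ c j) (δ : ℝ) (hδ : 0 < δ) (hℓ : ∀ j, δ ≤ ℓ j)
    (h1 : ∀ σ, 1 < σ → Summable fun j => c j * Real.exp (-σ * ℓ j)) (σ₁ : ℝ) (A B : ℂ → ℂ)
    (hA : DifferentiableOn ℂ A {s | σ₁ < s.re}) (hB : DifferentiableOn ℂ B {s | σ₁ < s.re})
    (hB0 : ∀ σ : ℝ, σ₁ < σ → σ ≤ 1 → B σ ≠ 0)
    (hAB : ∀ s : ℂ, 1 < s.re →
      A s = B s * Complex.exp (∑' j, (c j : ℂ) * Complex.exp (-s * ℓ j))) (σ : ℝ) (hσ : σ₁ < σ) :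
    Summable fun j => c j * Real.exp (-σ * ℓ j) := by
  have hℓ0 : ∀ j, 0 ≤ ℓ j := fun j => hδ.le.trans (hℓ j)
  have hmono : ∀ a b : ℝ, a ≤ b → (Summable fun j => c j * Real.exp (-a * ℓ j)) →
      Summable fun j => c j * Real.exp (-b * ℓ j) := by
    intro a b hab h
    refine Summable.of_nonneg_of_le (fun j => mul_nonneg (hc j) (Real.exp_pos _).le)
      (fun j => mul_le_mul_of_nonneg_left (dir_bound (hℓ0 j) hab) (hc j)) h
  set T : Set ℝ := {τ | σ₁ ≤ τ ∧ ∀ σ', τ < σ' → Summable fun j => c j * Real.exp (-σ' * ℓ j)}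
    with hT
  have hTne : T.Nonempty := ⟨max σ₁ 1, le_max_left _ _, fun σ' h =>
    h1 σ' (lt_of_le_of_lt (le_max_right _ _) h)⟩
  have hTb : BddBelow T := ⟨σ₁, fun τ hτ => hτ.1⟩
  set σc : ℝ := sInf T with hσc
  have hc1 : σ₁ ≤ σc := le_csInf hTne fun τ hτ => hτ.1
  have hcs : ∀ σ', σc < σ' → Summable fun j => c j * Real.exp (-σ' * ℓ j) := by
    intro σ' h
    obtain ⟨τ, hτ, hτ'⟩ := exists_lt_of_csInf_lt hTne h
    exact hτ.2 σ' hτ'
  rcases eq_or_lt_of_le hc1 with h | hlt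
  · exact hcs σ (h ▸ hσ)
  exfalso
  have hcle : σc ≤ 1 := by
    have h2 : σc ≤ max σ₁ 1 := csInf_le hTb ⟨le_max_left _ _, fun σ' h =>
      h1 σ' (lt_of_le_of_lt (le_max_right _ _) h)⟩
    rcases le_max_iff.mp h2 with h3 | h3
    · linarith
    · exact h3
  have hBc : B (σc : ℂ) ≠ 0 := hB0 σc hlt hcle
  set Φ : ℂ → ℂ := fun s => ∑' j, (c j : ℂ) * Complex.exp (-s * ℓ j) with hΦ
  have hnorm : ∀ j, ‖(c j : ℂ)‖ = c j := fun j => by
    rw [Complex.norm_real, Real.norm_of_nonneg (hc j)]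
  have hcs' : ∀ σ', σc < σ' → Summable fun j => ‖(c j : ℂ)‖ * Real.exp (-σ' * ℓ j) :=
    fun σ' h => by simpa only [hnorm] using hcs σ' h
  have hΦd : ∀ s : ℂ, σc < s.re → HasDerivAt Φ
      (∑' j, -(ℓ j : ℂ) * (c j : ℂ) * Complex.exp (-s * ℓ j)) s := fun s hs =>
    dir_hasDerivAt (fun j => (c j : ℂ)) ℓ hℓ0 σc hcs' s hs
  have hsub : {s : ℂ | σc < s.re} ⊆ {s : ℂ | σ₁ < s.re} := fun s hs => lt_trans hlt hs
  have hid : ∀ s : ℂ, σc < s.re → A s = B s * Complex.exp (Φ s) := by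
    intro s hs
    refine half_plane_eqOn σc A (fun s => B s * Complex.exp (Φ s)) (hA.mono hsub) ?_ ?_ s hs
    · refine (hB.mono hsub).mul ?_
      intro z hz
      exact (((hΦd z hz).differentiableAt).cexp).differentiableWithinAt
    · intro z hz _
      exact hAB z hz
  have hopen : IsOpen {s : ℂ | σ₁ < s.re} := isOpen_lt continuous_const Complex.continuous_re
  have hAa : AnalyticAt ℂ A (σc : ℂ) := hA.analyticOnNhd hopen (σc : ℂ) (by simpa using hlt)
  have hBa : AnalyticAt ℂ B (σc : ℂ) := hB.analyticOnNhd hopen (σc : ℂ) (by simpa using hlt)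
  -- `|A| ≥ |B|` on the real axis to the right of `σc`
  have hge : ∀ σ' : ℝ, σc < σ' → ‖B (σ' : ℂ)‖ ≤ ‖A (σ' : ℂ)‖ := by
    intro σ' h
    rw [hid (σ' : ℂ) (by simpa using h), norm_mul, Complex.norm_exp]
    have h2 : 0 ≤ (Φ (σ' : ℂ)).re := by
      have h3 : Φ (σ' : ℂ) = ((∑' j, c j * Real.exp (-σ' * ℓ j) : ℝ) : ℂ) := by
        rw [Complex.ofReal_tsum]
        simp only [hΦ]
        apply tsum_congr
        intro j
        push_cast
        rfl
      rw [h3, Complex.ofReal_re]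
      exact tsum_nonneg fun j => mul_nonneg (hc j) (Real.exp_pos _).le
    have h4 : 1 ≤ Real.exp (Φ (σ' : ℂ)).re := Real.one_le_exp h2
    nlinarith [norm_nonneg (B (σ' : ℂ))]
  have hAc : A (σc : ℂ) ≠ 0 := by
    have hlim1 : Tendsto (fun σ' : ℝ => ‖A (σ' : ℂ)‖) (𝓝[>] σc) (𝓝 ‖A (σc : ℂ)‖) :=
      ((hAa.continuousAt.norm.tendsto).comp
        (Complex.continuous_ofReal.tendsto σc)).mono_left nhdsWithin_le_nhds
    have hlim2 : Tendsto (fun σ' : ℝ => ‖B (σ' : ℂ)‖) (𝓝[>] σc) (𝓝 ‖B (σc : ℂ)‖) :=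
      ((hBa.continuousAt.norm.tendsto).comp
        (Complex.continuous_ofReal.tendsto σc)).mono_left nhdsWithin_le_nhds
    have h2 : ‖B (σc : ℂ)‖ ≤ ‖A (σc : ℂ)‖ :=
      le_of_tendsto_of_tendsto hlim2 hlim1 (by
        filter_upwards [self_mem_nhdsWithin] with σ' hσ'
        exact hge σ' hσ')
    have h3 : 0 < ‖B (σc : ℂ)‖ := norm_pos_iff.mpr hBc
    exact norm_pos_iff.mp (lt_of_lt_of_le h3 h2)
  -- the logarithmic derivative
  set g : ℂ → ℂ := fun s => -(deriv A s / A s - deriv B s / B s) with hg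
  have hga : AnalyticAt ℂ g (σc : ℂ) :=
    ((hAa.deriv.div hAa hAc).sub (hBa.deriv.div hBa hBc)).neg
  have hge2 : ∀ᶠ s in 𝓝 (σc : ℂ), σc < s.re →
      g s = ∑' j, ((ℓ j * c j : ℝ) : ℂ) * Complex.exp (-s * ℓ j) := by
    have hAe : ∀ᶠ s in 𝓝 (σc : ℂ), A s ≠ 0 := hAa.continuousAt.eventually_ne hAc
    have hBe : ∀ᶠ s in 𝓝 (σc : ℂ), B s ≠ 0 := hBa.continuousAt.eventually_ne hBc
    filter_upwards [hAe, hBe] with s hAs hBs hs
    have ho : IsOpen {s : ℂ | σc < s.re} := isOpen_lt continuous_const Complex.continuous_re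
    have hBd : HasDerivAt B (deriv B s) s :=
      ((hB.mono hsub).differentiableAt (ho.mem_nhds hs)).hasDerivAt
    have hev : A =ᶠ[𝓝 s] fun s => B s * Complex.exp (Φ s) := by
      filter_upwards [ho.mem_nhds hs] with z hz
      exact hid z hz
    have hAd : HasDerivAt A (deriv B s * Complex.exp (Φ s) + B s * (Complex.exp (Φ s) *
        (∑' j, -(ℓ j : ℂ) * (c j : ℂ) * Complex.exp (-s * ℓ j)))) s :=
      (hBd.mul ((hΦd s hs).cexp)).congr_of_eventuallyEq hev
    have hneg : (∑' j, -(ℓ j : ℂ) * (c j : ℂ) * Complex.exp (-s * ℓ j)) =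
        -∑' j, ((ℓ j * c j : ℝ) : ℂ) * Complex.exp (-s * ℓ j) := by
      rw [← tsum_neg]
      apply tsum_congr
      intro j
      push_cast
      ring
    simp only [hg]
    rw [hAd.deriv, hid s hs, hneg]
    have he := Complex.exp_ne_zero (Φ s)
    field_simp
    ring
  obtain ⟨ε, hε, hsum⟩ := landau (fun j => ℓ j * c j) (fun j => mul_nonneg (hℓ0 j) (hc j)) ℓ hℓ0 σc
    (fun σ' h => dir_summable_mul c hc ℓ hℓ0 σc hcs σ' h) g hga hge2
  have hsum2 : Summable fun j => c j * Real.exp (-(σc - ε) * ℓ j) := by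
    refine Summable.of_nonneg_of_le (fun j => mul_nonneg (hc j) (Real.exp_pos _).le) (fun j => ?_)
      (hsum.mul_left (1 / δ))
    have h2 : 1 ≤ 1 / δ * ℓ j := by
      rw [one_div, ← div_eq_inv_mul, le_div_iff₀ hδ]
      linarith [hℓ j]
    calc c j * Real.exp (-(σc - ε) * ℓ j) = 1 * (c j * Real.exp (-(σc - ε) * ℓ j)) := by ring
      _ ≤ (1 / δ * ℓ j) * (c j * Real.exp (-(σc - ε) * ℓ j)) :=
          mul_le_mul_of_nonneg_right h2 (mul_nonneg (hc j) (Real.exp_pos _).le)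
      _ = 1 / δ * (ℓ j * c j * Real.exp (-(σc - ε) * ℓ j)) := by ring
  have hmem : max σ₁ (σc - ε) ∈ T := ⟨le_max_left _ _, fun σ' h =>
    hmono (σc - ε) σ' ((le_max_right _ _).trans h.le) hsum2⟩
  have h2 := csInf_le hTb hmem
  have h3 : max σ₁ (σc - ε) < σc := max_lt hlt (by linarith)
  exact absurd h2 (not_le.mpr h3)

end general

theorem badE_differentiableOn (b₁ b₂ : List (ℕ × ℂ)) (hb₁ : ∀ x ∈ b₁, 2 ≤ x.1 ∧ ‖x.2‖ ≤ 1)
    (hb₂ : ∀ x ∈ b₂, 2 ≤ x.1 ∧ ‖x.2‖ ≤ 1) (s : ℂ) (hs : 0 < s.re) :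
    DifferentiableAt ℂ (badE b₁ b₂) s := by
  have hpow : ∀ q : ℕ, 2 ≤ q → DifferentiableAt ℂ (fun s : ℂ => (q : ℂ) ^ (-s)) s := by
    intro q hq
    have hq0 : (q : ℂ) ≠ 0 := by
      have : q ≠ 0 := by omega
      exact_mod_cast this
    exact (differentiableAt_id.neg).const_cpow (Or.inl hq0)
  have h1 : ∀ l : List (ℕ × ℂ), (∀ x ∈ l, 2 ≤ x.1 ∧ ‖x.2‖ ≤ 1) →
      DifferentiableAt ℂ (fun s : ℂ => (l.map fun x => (1 - x.2 * (x.1 : ℂ) ^ (-s))⁻¹).prod) s := by
    intro l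
    induction l with
    | nil => intro _; simp
    | cons x l ih =>
      intro h
      simp only [List.map_cons, List.prod_cons]
      have hx := h x (by simp)
      refine DifferentiableAt.mul ?_ (ih fun y hy => h y (by simp [hy]))
      refine DifferentiableAt.inv ((differentiableAt_const _).sub ((hpow x.1 hx.1).const_mul _)) ?_
      intro h0
      have h2 : x.2 * (x.1 : ℂ) ^ (-s) = 1 := (sub_eq_zero.mp h0).symm
      have h3 : ‖x.2 * (x.1 : ℂ) ^ (-s)‖ < 1 := by
        rw [norm_mul, Complex.norm_natCast_cpow_of_pos (by omega)]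
        have h4 : (x.1 : ℝ) ^ (-s).re < 1 := by
          apply Real.rpow_lt_one_of_one_lt_of_neg
          · have : (2 : ℝ) ≤ x.1 := by exact_mod_cast hx.1
            linarith
          · simpa using hs
        have h5 : 0 ≤ (x.1 : ℝ) ^ (-s).re := by positivity
        nlinarith [hx.2, norm_nonneg x.2]
      rw [h2] at h3
      simp at h3
  have h2 : ∀ l : List (ℕ × ℂ), (∀ x ∈ l, 2 ≤ x.1 ∧ ‖x.2‖ ≤ 1) →
      DifferentiableAt ℂ (fun s : ℂ => (l.map fun x => 1 - x.2 * (x.1 : ℂ) ^ (-s)).prod) s := by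
    intro l
    induction l with
    | nil => intro _; simp
    | cons x l ih =>
      intro h
      simp only [List.map_cons, List.prod_cons]
      have hx := h x (by simp)
      exact ((differentiableAt_const _).sub ((hpow x.1 hx.1).const_mul _)).mul
        (ih fun y hy => h y (by simp [hy]))
  exact (h1 b₁ hb₁).mul (h2 b₂ hb₂)

section core

variable {V : Type} (N : V → ℕ) (X T : V → Multiset ℂ) (n : ℕ)

/-- the coefficients of the logarithm of the quotient of the two Rankin-Selberg products -/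
noncomputable def cc (x : V × ℕ) : ℝ :=
  (‖ps (T x.1) (x.2 + 1)‖ ^ 2 - ‖ps (X x.1) (x.2 + 1)‖ ^ 2) / (x.2 + 1)

/-- the frequencies -/
noncomputable def ll (x : V × ℕ) : ℝ := (x.2 + 1) * Real.log (N x.1)

theorem rs_norm {T : Multiset ℂ} (hT : ∀ a ∈ T, ‖a‖ = 1) : ∀ a ∈ rs T, ‖a‖ ≤ 1 := by
  intro a ha
  simp only [rs, Multiset.mem_map, Multiset.mem_product, Prod.exists] at ha
  obtain ⟨b, b', ⟨h1, h2⟩, rfl⟩ := ha
  rw [norm_mul, RCLike.norm_conj, hT b h1, hT b' h2]
  norm_num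

theorem rs_card {T : Multiset ℂ} : Multiset.card (rs T) = Multiset.card T ^ 2 := by
  simp [rs, Multiset.card_product, sq]

theorem core (hN : ∀ v, 2 ≤ N v)
    (hsum : ∀ σ : ℝ, 1 < σ → Summable fun v => (N v : ℝ) ^ (-σ))
    (hX1 : ∀ v, ∀ a ∈ X v, ‖a‖ = 1) (hT1 : ∀ v, ∀ a ∈ T v, ‖a‖ = 1)
    (hXn : ∀ v, Multiset.card (X v) = n) (hTn : ∀ v, Multiset.card (T v) = n)
    (hmin : ∀ v k, ‖ps (X v) k‖ ≤ ‖ps (T v) k‖)
    (hgap : ∀ v, T v ≠ X v → ‖(X v).sum‖ ^ 2 + 1 ≤ ‖(T v).sum‖ ^ 2)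
    (σ₁ : ℝ) (h0 : 0 ≤ σ₁) (A B : ℂ → ℂ) (hA : DifferentiableOn ℂ A {s | σ₁ < s.re})
    (hB : DifferentiableOn ℂ B {s | σ₁ < s.re}) (hB0 : ∀ σ : ℝ, σ₁ < σ → σ ≤ 1 → B σ ≠ 0)
    (hAe : ∀ s : ℂ, 1 < s.re → A s = (s - 1) * Lf N (fun v => rs (T v)) s)
    (hBe : ∀ s : ℂ, 1 < s.re → B s = (s - 1) * Lf N (fun v => rs (X v)) s) :
    (∀ σ, σ₁ < σ → Summable fun v : {v // T v ≠ X v} => (N v : ℝ) ^ (-σ)) ∧
    (∃ R : ℂ → ℂ, DifferentiableOn ℂ R {s | σ₁ < s.re} ∧ (∀ s : ℂ, σ₁ < s.re → R s ≠ 0) ∧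
      ∀ s : ℂ, 1 < s.re → Lf N X s = R s * Lf N T s) ∧
    (σ₁ < 1 / 2 → ∀ (b₁ b₂ : List (ℕ × ℂ)), (∀ x ∈ b₁, 2 ≤ x.1 ∧ ‖x.2‖ ≤ 1) →
      (∀ x ∈ b₂, 2 ≤ x.1 ∧ ‖x.2‖ ≤ 1) → ∀ (κ : ℂ) (Q : ℝ), κ ≠ 0 → 0 < Q →
      (∀ s : ℂ, σ₁ < s.re → s.re < 1 - σ₁ → A s * B (1 - s) * badE b₁ b₂ s =
        κ * (Q : ℂ) ^ (-s) * A (1 - s) * B s * badE b₁ b₂ (1 - s)) →
      ∀ v, T v ≠ X v → ∃ a : ℕ, 1 ≤ a ∧ ∃ y ∈ b₁ ++ b₂, N v = y.1 ^ a) := by
  classical
  have hc : ∀ x, 0 ≤ cc X T x := by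
    intro x
    have h1 := hmin x.1 (x.2 + 1)
    have h2 := norm_nonneg (ps (X x.1) (x.2 + 1))
    have h3 : ‖ps (X x.1) (x.2 + 1)‖ ^ 2 ≤ ‖ps (T x.1) (x.2 + 1)‖ ^ 2 :=
      pow_le_pow_left₀ h2 h1 2
    unfold cc
    apply div_nonneg (by linarith)
    positivity
  have hlog : ∀ v, Real.log 2 ≤ Real.log (N v) := fun v =>
    Real.log_le_log (by norm_num) (by exact_mod_cast hN v)
  have hl2 : 0 < Real.log 2 := Real.log_pos (by norm_num)
  have hℓ : ∀ x : V × ℕ, Real.log 2 ≤ ll N x := by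
    intro x
    unfold ll
    have h1 := hlog x.1
    have h2 : (0 : ℝ) ≤ x.2 := by positivity
    nlinarith
  -- the exponential formulas
  have hEX := fun s hs => Lf_eq_exp N hN hsum (fun v => rs (X v)) (fun v => rs_norm (hX1 v)) (n ^ 2)
    (fun v => by rw [rs_card, hXn v]) s hs
  have hET := fun s hs => Lf_eq_exp N hN hsum (fun v => rs (T v)) (fun v => rs_norm (hT1 v)) (n ^ 2)
    (fun v => by rw [rs_card, hTn v]) s hs
  have hccsplit : ∀ x : V × ℕ, (cc X T x : ℂ) = ps (rs (T x.1)) (x.2 + 1) / (x.2 + 1) -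
      ps (rs (X x.1)) (x.2 + 1) / (x.2 + 1) := by
    intro x
    rw [ps_rs, ps_rs]
    unfold cc
    push_cast
    ring
  have hP1 : ∀ σ, 1 < σ → Summable fun x => cc X T x * Real.exp (-σ * ll N x) := by
    intro σ hσ
    have h1 := (hET (σ : ℂ) (by simpa using hσ)).2
    refine Summable.of_nonneg_of_le (fun x => mul_nonneg (hc x) (Real.exp_pos _).le) (fun x => ?_) h1
    simp only [Complex.ofReal_re]
    apply mul_le_mul_of_nonneg_right _ (Real.exp_pos _).le
    rw [ps_rs, norm_div, Complex.norm_real, Real.norm_of_nonneg (by positivity)]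
    have h2 : ‖((x.2 : ℂ) + 1)‖ = (x.2 : ℝ) + 1 := by
      have : ((x.2 : ℂ) + 1) = (((x.2 : ℝ) + 1 : ℝ) : ℂ) := by push_cast; rfl
      rw [this, Complex.norm_real, Real.norm_of_nonneg (by positivity)]
    rw [h2]
    unfold cc
    apply div_le_div_of_nonneg_right _ (by positivity)
    have := sq_nonneg ‖ps (X x.1) (x.2 + 1)‖
    linarith
  have hAB : ∀ s : ℂ, 1 < s.re →
      A s = B s * Complex.exp (∑' x, (cc X T x : ℂ) * Complex.exp (-s * ll N x)) := by
    intro s hs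
    rw [hAe s hs, hBe s hs, (hEX s hs).1, (hET s hs).1, mul_assoc, ← Complex.exp_add]
    congr 2
    have hsX : Summable fun x : V × ℕ => ps (rs (X x.1)) (x.2 + 1) / (x.2 + 1) *
        Complex.exp (-s * ((x.2 + 1) * Real.log (N x.1) : ℝ)) := by
      apply Summable.of_norm
      refine (summable_congr fun x => ?_).mpr (hEX s hs).2
      exact norm_dir_term _ _ _
    have hsT : Summable fun x : V × ℕ => ps (rs (T x.1)) (x.2 + 1) / (x.2 + 1) *
        Complex.exp (-s * ((x.2 + 1) * Real.log (N x.1) : ℝ)) := by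
      apply Summable.of_norm
      refine (summable_congr fun x => ?_).mpr (hET s hs).2
      exact norm_dir_term _ _ _
    have h3 : (∑' x, (cc X T x : ℂ) * Complex.exp (-s * ll N x)) =
        (∑' x : V × ℕ, ps (rs (T x.1)) (x.2 + 1) / (x.2 + 1) *
        Complex.exp (-s * ((x.2 + 1) * Real.log (N x.1) : ℝ))) -
        ∑' x : V × ℕ, ps (rs (X x.1)) (x.2 + 1) / (x.2 + 1) *
        Complex.exp (-s * ((x.2 + 1) * Real.log (N x.1) : ℝ)) := by
      rw [← hsT.tsum_sub hsX]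
      apply tsum_congr
      intro x
      rw [hccsplit]
      unfold ll
      ring
    rw [h3]
    ring
  have hP := landau_ratio (cc X T) (ll N) hc (Real.log 2) hl2 hℓ hP1 σ₁ A B hA hB hB0 hAB
  -- (a)
  have hthin : ∀ σ, σ₁ < σ → Summable fun v : {v // T v ≠ X v} => (N v : ℝ) ^ (-σ) := by
    intro σ hσ
    have hinj : Function.Injective (fun v : {v // T v ≠ X v} => ((v : V), (0 : ℕ))) := by
      intro a b h
      exact Subtype.ext (congrArg Prod.fst h)
    have h1 := (hP σ hσ).comp_injective hinj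
    refine Summable.of_nonneg_of_le (fun v => by positivity) (fun v => ?_) h1
    simp only [Function.comp_apply]
    have h2 := hgap v.1 v.2
    have h3 : 1 ≤ cc X T ((v : V), 0) := by
      unfold cc
      simp only [ps, zero_add, pow_one, Multiset.map_id', Nat.cast_zero, div_one]
      linarith
    have hpos : (0 : ℝ) < N v := by
      have := hN v
      exact_mod_cast (by omega : 0 < N v)
    have h4 : (N v : ℝ) ^ (-σ) = Real.exp (-σ * ll N ((v : V), 0)) := by
      rw [Real.rpow_def_of_pos hpos]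
      unfold ll
      congr 1
      push_cast
      ring
    rw [h4]
    nlinarith [Real.exp_pos (-σ * ll N ((v : V), 0))]
  refine ⟨hthin, ?_, ?_⟩
  · -- (a2)
    set d : V × ℕ → ℂ := fun x => (ps (X x.1) (x.2 + 1) - ps (T x.1) (x.2 + 1)) / (x.2 + 1) with hd
    have hpsb : ∀ (M : Multiset ℂ), (∀ a ∈ M, ‖a‖ = 1) → ∀ k, ‖ps M k‖ ≤ Multiset.card M := by
      intro M
      induction M using Multiset.induction_on with
      | empty => intro _ k; simp [ps]
      | cons a M ih =>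
        intro h k
        have h1 := ih (fun b hb => h b (Multiset.mem_cons_of_mem hb)) k
        simp only [ps, Multiset.map_cons, Multiset.sum_cons, Multiset.card_cons] at *
        calc _ ≤ ‖a ^ k‖ + ‖(Multiset.map (fun a => a ^ k) M).sum‖ := norm_add_le _ _
          _ ≤ 1 + Multiset.card M := by
            rw [norm_pow, h a (Multiset.mem_cons_self a M), one_pow]
            linarith
          _ = _ := by push_cast; ring
    have hdsum : ∀ σ, σ₁ < σ → Summable fun x => ‖d x‖ * Real.exp (-σ * ll N x) := by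
      intro σ hσ
      set i : {v // T v ≠ X v} × ℕ → V × ℕ := fun x => ((x.1 : V), x.2) with hi
      have hinj : Function.Injective i := by
        rintro ⟨a, k⟩ ⟨b, m⟩ h
        simp only [hi, Prod.mk.injEq] at h
        exact Prod.ext (Subtype.ext h.1) h.2
      have hz : ∀ x, x ∉ Set.range i → ‖d x‖ * Real.exp (-σ * ll N x) = 0 := by
        intro x hx
        have h1 : T x.1 = X x.1 := by
          by_contra h
          exact hx ⟨(⟨x.1, h⟩, x.2), rfl⟩
        simp [hd, h1]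
      refine (hinj.summable_iff hz).mp ?_
      have h2 := thin_summable (fun v : {v // T v ≠ X v} => N v) (fun v => hN v) σ
        (lt_of_le_of_lt h0 hσ) (hthin σ hσ) (2 * n)
        (fun x => ‖ps (X x.1) (x.2 + 1) - ps (T x.1) (x.2 + 1)‖) (fun x => ⟨norm_nonneg _, by
          have h3 := hpsb (X x.1) (hX1 x.1) (x.2 + 1)
          have h4 := hpsb (T x.1) (hT1 x.1) (x.2 + 1)
          rw [hXn] at h3
          rw [hTn] at h4
          have h5 := norm_sub_le (ps (X x.1) (x.2 + 1)) (ps (T x.1) (x.2 + 1))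
          linarith⟩)
      refine (summable_congr fun x => ?_).mpr h2
      simp only [Function.comp_apply, hi, hd, ll]
      rw [norm_div]
      have h2 : ‖((x.2 : ℂ) + 1)‖ = (x.2 : ℝ) + 1 := by
        have : ((x.2 : ℂ) + 1) = (((x.2 : ℝ) + 1 : ℝ) : ℂ) := by push_cast; rfl
        rw [this, Complex.norm_real, Real.norm_of_nonneg (by positivity)]
      rw [h2]
    refine ⟨fun s => Complex.exp (∑' x, d x * Complex.exp (-s * ll N x)), ?_, ?_, ?_⟩
    · intro s hs
      exact ((dir_hasDerivAt d (ll N) (fun x => hl2.le.trans (hℓ x)) σ₁ hdsum s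
        hs).differentiableAt.cexp).differentiableWithinAt
    · intro s _
      exact Complex.exp_ne_zero _
    · intro s hs
      have hLX := Lf_eq_exp N hN hsum X (fun v a ha => (hX1 v a ha).le) n (fun v => (hXn v).le) s hs
      have hLT := Lf_eq_exp N hN hsum T (fun v a ha => (hT1 v a ha).le) n (fun v => (hTn v).le) s hs
      rw [hLX.1, hLT.1, ← Complex.exp_add]
      congr 1
      have hsX : Summable fun x : V × ℕ => ps (X x.1) (x.2 + 1) / (x.2 + 1) *
          Complex.exp (-s * ((x.2 + 1) * Real.log (N x.1) : ℝ)) := by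
        apply Summable.of_norm
        refine (summable_congr fun x => ?_).mpr hLX.2
        exact norm_dir_term _ _ _
      have hsT : Summable fun x : V × ℕ => ps (T x.1) (x.2 + 1) / (x.2 + 1) *
          Complex.exp (-s * ((x.2 + 1) * Real.log (N x.1) : ℝ)) := by
        apply Summable.of_norm
        refine (summable_congr fun x => ?_).mpr hLT.2
        exact norm_dir_term _ _ _
      have h3 : (∑' x, d x * Complex.exp (-s * ll N x)) =
          (∑' x : V × ℕ, ps (X x.1) (x.2 + 1) / (x.2 + 1) *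
          Complex.exp (-s * ((x.2 + 1) * Real.log (N x.1) : ℝ))) -
          ∑' x : V × ℕ, ps (T x.1) (x.2 + 1) / (x.2 + 1) *
          Complex.exp (-s * ((x.2 + 1) * Real.log (N x.1) : ℝ)) := by
        rw [← hsX.tsum_sub hsT]
        apply tsum_congr
        intro x
        simp only [hd, ll]
        ring
      rw [h3]
      ring
  · -- (b)
    intro hhalf b₁ b₂ hb₁ hb₂ κ Q hκ hQ hfe v hv
    set Φ : ℂ → ℂ := fun s => ∑' x, (cc X T x : ℂ) * Complex.exp (-s * ll N x) with hΦ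
    have hnorm : ∀ x, ‖(cc X T x : ℂ)‖ = cc X T x := fun x => by
      rw [Complex.norm_real, Real.norm_of_nonneg (hc x)]
    have hΦd : ∀ s : ℂ, σ₁ < s.re → DifferentiableAt ℂ Φ s := fun s hs =>
      (dir_hasDerivAt (fun x => (cc X T x : ℂ)) (ll N) (fun x => hl2.le.trans (hℓ x)) σ₁
        (fun σ hσ => by simpa only [hnorm] using hP σ hσ) s hs).differentiableAt
    have hid : ∀ s : ℂ, σ₁ < s.re → A s = B s * Complex.exp (Φ s) := by
      intro s hs
      refine half_plane_eqOn σ₁ A (fun s => B s * Complex.exp (Φ s)) hA ?_ ?_ s hs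
      · refine hB.mul ?_
        intro z hz
        exact ((hΦd z hz).cexp).differentiableWithinAt
      · intro z hz _
        exact hAB z hz
    set U : Set ℂ := {s | σ₁ < s.re} ∩ {s | s.re < 1 - σ₁} with hU
    have hUo : IsOpen U := (isOpen_lt continuous_const Complex.continuous_re).inter
      (isOpen_lt Complex.continuous_re continuous_const)
    have hUc : IsPreconnected U :=
      ((convex_halfSpace_re_gt σ₁).inter (convex_halfSpace_re_lt (1 - σ₁))).isPreconnected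
    have h12 : ((1 / 2 : ℝ) : ℂ) ∈ U := by
      constructor
      · show σ₁ < (((1 / 2 : ℝ) : ℂ)).re
        rw [Complex.ofReal_re]
        exact hhalf
      · show (((1 / 2 : ℝ) : ℂ)).re < 1 - σ₁
        rw [Complex.ofReal_re]
        linarith
    set f1 : ℂ → ℂ := fun s => Complex.exp (Φ s) * badE b₁ b₂ s with hf1
    set f2 : ℂ → ℂ := fun s => κ * (Q : ℂ) ^ (-s) * Complex.exp (Φ (1 - s)) * badE b₁ b₂ (1 - s)
      with hf2
    have hre : ∀ s : ℂ, (1 - s).re = 1 - s.re := fun s => by simp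
    have hf1d : DifferentiableOn ℂ f1 U := by
      intro s hs
      exact (((hΦd s hs.1).cexp).mul (badE_differentiableOn b₁ b₂ hb₁ hb₂ s
        (lt_of_le_of_lt h0 hs.1))).differentiableWithinAt
    have hQ0 : (Q : ℂ) ≠ 0 := by exact_mod_cast hQ.ne'
    have hf2d : DifferentiableOn ℂ f2 U := by
      intro s hs
      have hs2 : σ₁ < (1 - s).re := by
        rw [hre]
        have : s.re < 1 - σ₁ := hs.2
        linarith
      have hsub : DifferentiableAt ℂ (fun s : ℂ => 1 - s) s :=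
        (differentiableAt_const _).sub differentiableAt_id
      have e1 : DifferentiableAt ℂ (fun s : ℂ => (Q : ℂ) ^ (-s)) s :=
        (differentiableAt_id.neg).const_cpow (Or.inl hQ0)
      have e2 : DifferentiableAt ℂ (fun s : ℂ => Complex.exp (Φ (1 - s))) s :=
        ((hΦd (1 - s) hs2).comp s hsub).cexp
      have e3 : DifferentiableAt ℂ (fun s : ℂ => badE b₁ b₂ (1 - s)) s :=
        (badE_differentiableOn b₁ b₂ hb₁ hb₂ (1 - s) (lt_of_le_of_lt h0 hs2)).comp s hsub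
      exact (((e1.const_mul κ).mul e2).mul e3).differentiableWithinAt
    have hUeq : Set.EqOn f1 f2 U := by
      apply (hf1d.analyticOnNhd hUo).eqOn_of_preconnected_of_eventuallyEq
        (hf2d.analyticOnNhd hUo) hUc h12
      have hBo : IsOpen {s : ℂ | σ₁ < s.re} := isOpen_lt continuous_const Complex.continuous_re
      have hBcont : ContinuousAt B ((1 / 2 : ℝ) : ℂ) :=
        (hB.differentiableAt (hBo.mem_nhds h12.1)).continuousAt
      have hBne : B ((1 / 2 : ℝ) : ℂ) ≠ 0 := hB0 (1 / 2) hhalf (by norm_num)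
      have hev1 : ∀ᶠ s in 𝓝 ((1 / 2 : ℝ) : ℂ), B s ≠ 0 := hBcont.eventually_ne hBne
      have hBcont2 : ContinuousAt (fun s : ℂ => B (1 - s)) ((1 / 2 : ℝ) : ℂ) := by
        have h5 : (1 : ℂ) - ((1 / 2 : ℝ) : ℂ) = ((1 / 2 : ℝ) : ℂ) := by push_cast; norm_num
        have h6 : ContinuousAt B ((1 : ℂ) - ((1 / 2 : ℝ) : ℂ)) := by rw [h5]; exact hBcont
        exact ContinuousAt.comp (f := fun s : ℂ => 1 - s) h6
          (continuousAt_const.sub continuousAt_id)
      have hev2 : ∀ᶠ s in 𝓝 ((1 / 2 : ℝ) : ℂ), B (1 - s) ≠ 0 := by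
        apply hBcont2.eventually_ne
        have h5 : (1 : ℂ) - ((1 / 2 : ℝ) : ℂ) = ((1 / 2 : ℝ) : ℂ) := by push_cast; norm_num
        rw [h5]
        exact hBne
      filter_upwards [hev1, hev2, hUo.mem_nhds h12] with s hs1 hs2 hsU
      have hs3 : σ₁ < (1 - s).re := by
        rw [hre]
        have : s.re < 1 - σ₁ := hsU.2
        linarith
      have h7 := hfe s hsU.1 hsU.2
      rw [hid s hsU.1, hid (1 - s) hs3] at h7
      have h8 : B s * B (1 - s) * (f1 s - f2 s) = 0 := by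
        simp only [hf1, hf2]
        linear_combination h7
      have h9 : f1 s - f2 s = 0 := by
        rcases mul_eq_zero.mp h8 with h | h
        · rcases mul_eq_zero.mp h with h | h
          · exact absurd h hs1
          · exact absurd h hs2
        · exact h
      exact sub_eq_zero.mp h9
    have hcpos : 0 < cc X T (v, 0) := by
      have h2 := hgap v hv
      unfold cc
      simp only [ps, zero_add, pow_one, Multiset.map_id', Nat.cast_zero, div_one]
      linarith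
    obtain ⟨a, ha, y, hy, he⟩ := fe_support N hN (cc X T) hc σ₁ h0 hhalf hP b₁ b₂ hb₁ hb₂ κ hκ Q hQ
      (fun s hs1 hs2 => hUeq ⟨hs1, hs2⟩) (v, 0) hcpos
    exact ⟨a, ha, y, hy, by simpa using he⟩

end core

end Pool.Agent.H13.SR
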